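import Pool.Agent.H665.UE.Rl

set_option autoImplicit false

/-!
# Categoricity implies amalgamation in pseudouniversal classes

`K` is an abstract elementary class in a vocabulary of any size.

* `K` is universal if all nonempty substructures of members are strong submodels.
* `K` is pseudouniversal (Vasey) if the nonempty intersections of strong submodels are strong
  submodels and an automorphism of a member `M` is the identity if it fixes a finite nonempty set
  which is contained in no proper strong submodel of `M`. Universal classes are pseudouniversal.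

(1) The question for these classes, with the explicit bound `μ(κ) = h(κ) = ℶ_((2 ^ κ)⁺)(κ)`
(`hanf κ`): every pseudouniversal class `K` with `LS(K) ≤ κ` that is categorical in some
`λ ≥ h(κ)` has `AP_χ` for all `χ ≥ h(κ)`.

(2) More is true: suppose that for every `χ < H₁ = h(LS(K))` there is a member with at least `χ`
elements, and that `K` is categorical in some `μ > LS(K)` (any such `μ`: successor, singular,
`LS(K)⁺`, ...). Let `κ₀` be the least `μ > LS(K)` in which `K` is categorical. Then `κ₀ < H₁`, and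
all strong extensions `M₁`, `M₂`, of any cardinalities, of a member `M₀` with at least `κ₀` elements
can be amalgamated over `M₀` in a member of cardinality `max (#M₁) (#M₂)`, such that the images of
`M₁` and `M₂` intersect in the image of `M₀`.

(3) If moreover every member `M` with `LS(K) < #M < H₁` has a proper strong extension (then there
are large members), then `κ₀ = LS(K)⁺`: categoricity in one cardinal `μ > LS(K)` implies disjoint
amalgamation over all members with more than `LS(K)` elements.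

No set-theoretic hypothesis, no tameness and no amalgamation below is assumed.

Proof. With `LS(K)` additional function symbols the members of `K` become the members of a universal
class (`UA/Lx.lean`). For the template `Ψ` without Vaughtian pairs (over families of size `κ₀`,
hence over all families of size `≥ κ₀`) every member with at least `κ₀` elements is generated by a
totally indiscernible family with template `Ψ`, and a family with at least `κ₀` elements in a member
can be extended to a family which generates the member. So `M₁` and `M₂` are generated by the family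
`X` of `M₀` and sets `Z₁` and `Z₂`. The free structure over `X`, `Z₁` and `Z₂` is the amalgam. It is
disjoint because an element generated by `X` and `Z₁` and also by `X` and `Z₂` is generated by `X`:
the elements of `Z₂` in the second term can be replaced by new elements of `X`.
-/

namespace Pool.Agent.Results.MP_23d7af_lc.PseudouniversalClasses

open FirstOrder FirstOrder.Language Cardinal Ordinal
open Pool.Agent.H288R4.LS (AEC hanf bethFrom)

/-- All nonempty substructures of members are strong submodels. -/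
def Universal {L : FirstOrder.Language.{0, 0}} (K : AEC L) : Prop :=
  ∀ (N : Type) [L.Structure N], K.mem N → ∀ A : L.Substructure N, (A : Set N).Nonempty →
    K.emb A.subtype

/-- For every nonempty subset `X` of a member the intersection of all strong submodels that contain
`X` is a strong submodel. -/
def AdmitsIntersections {L : FirstOrder.Language.{0, 0}} (K : AEC L) : Prop :=
  ∀ (N : Type) [L.Structure N], K.mem N → ∀ X : Set N, X.Nonempty →
    K.emb (sInf {A : L.Substructure N | K.emb A.subtype ∧ X ⊆ A}).subtype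

/-- The set `X` is contained in no proper strong submodel of `M`. -/
def Generates {L : FirstOrder.Language.{0, 0}} (K : AEC L) (M : Type) [L.Structure M]
    (X : Set M) : Prop :=
  ∀ A : L.Substructure M, K.emb A.subtype → X ⊆ A → A = ⊤

/-- An automorphism of a member is the identity if it fixes a finite nonempty set that is contained
in no proper strong submodel. -/
def UniqueIsomorphisms {L : FirstOrder.Language.{0, 0}} (K : AEC L) : Prop :=
  ∀ (M : Type) [L.Structure M], K.mem M → ∀ X : Set M, X.Finite → X.Nonempty →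
    Generates K M X → ∀ g : M ≃[L] M, (∀ x ∈ X, g x = x) → ∀ x, g x = x

/-- The class has members of cardinality at least `χ` for all `χ < H₁`. -/
def LargeMembers {L : FirstOrder.Language.{0, 0}} (K : AEC L) : Prop :=
  ∀ χ : Cardinal.{0}, χ < K.H1 → ∃ (M : Type) (_ : L.Structure M), K.mem M ∧ χ ≤ #M

/-- `AP_χ`: amalgamation of strong extensions, all three members of cardinality `χ`. -/
def AP {L : FirstOrder.Language.{0, 0}} (K : AEC L) (χ : Cardinal.{0}) : Prop :=
  ∀ (M₀ M₁ M₂ : Type) [L.Structure M₀] [L.Structure M₁] [L.Structure M₂] (f₁ : M₀ ↪[L] M₁)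
    (f₂ : M₀ ↪[L] M₂), #M₀ = χ → #M₁ = χ → #M₂ = χ → K.emb f₁ → K.emb f₂ →
    ∃ (N : Type) (_ : L.Structure N) (g₁ : M₁ ↪[L] N) (g₂ : M₂ ↪[L] N), K.emb g₁ ∧ K.emb g₂ ∧
      ∀ x, g₁ (f₁ x) = g₂ (f₂ x)

/-- Disjoint amalgamation over the members with at least `κ` elements, with an amalgam whose
cardinality is the larger one of the two cardinalities. -/
def DisjointAmalgamation {L : FirstOrder.Language.{0, 0}} (K : AEC L) (κ : Cardinal.{0}) : Prop :=
  ∀ (M₀ M₁ M₂ : Type) [L.Structure M₀] [L.Structure M₁] [L.Structure M₂] (f₁ : M₀ ↪[L] M₁)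
    (f₂ : M₀ ↪[L] M₂), κ ≤ #M₀ → K.emb f₁ → K.emb f₂ →
    ∃ (N : Type) (_ : L.Structure N) (g₁ : M₁ ↪[L] N) (g₂ : M₂ ↪[L] N), K.emb g₁ ∧ K.emb g₂ ∧
      (∀ x, g₁ (f₁ x) = g₂ (f₂ x)) ∧ (∀ y z, g₁ y = g₂ z → ∃ x, y = f₁ x ∧ z = f₂ x) ∧
      #N = max #M₁ #M₂

/-- Every member `M` with `LS(K) < #M < H₁` has a proper strong extension. -/
def NoMaximalMembers {L : FirstOrder.Language.{0, 0}} (K : AEC L) : Prop :=
  ∀ (M : Type) [L.Structure M], K.mem M → K.lsNum < #M → #M < K.H1 →
    ∃ (N : Type) (_ : L.Structure N) (f : M ↪[L] N), K.emb f ∧ ¬ Function.Surjective f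

theorem rig {L : FirstOrder.Language.{0, 0}} {K : AEC L} (h : UniqueIsomorphisms K) :
    Pool.Agent.H665.UA.Rig K := by
  intro M _ hM n a hn hA g hg
  refine h M hM (Set.range a) (Set.finite_range a) ⟨a ⟨0, hn⟩, _, rfl⟩ ?_ g ?_
  · intro A h1 h2
    exact hA A h1 fun i => h2 ⟨i, rfl⟩
  · rintro _ ⟨i, rfl⟩
    exact hg i

theorem pseudo {L : FirstOrder.Language.{0, 0}} {K : AEC L} (hK : Universal K) :
    AdmitsIntersections K ∧ UniqueIsomorphisms K := by
  refine ⟨fun N _ hN X hX => hK N hN _ ?_, fun M _ hM X _ hX hG g hg x => ?_⟩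
  · obtain ⟨x, hx⟩ := hX
    exact ⟨x, Substructure.mem_sInf.2 fun A hA => hA.2 hx⟩
  · let B : L.Substructure M := g.toHom.eqLocus (Hom.id L M)
    have h1 : B = ⊤ := by
      obtain ⟨y, hy⟩ := hX
      exact hG B (hK M hM B ⟨y, hg y hy⟩) fun z hz => hg z hz
    have h2 : x ∈ B := h1 ▸ Substructure.mem_top x
    exact h2

theorem bethFrom_mono_left {lam lam' : Cardinal.{0}} (h : lam ≤ lam') (o : Ordinal.{0}) :
    bethFrom lam o ≤ bethFrom lam' o := by
  induction o using Ordinal.limitRecOn with
  | zero =>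
    rw [Pool.Agent.H288R4.LS.bethFrom_zero, Pool.Agent.H288R4.LS.bethFrom_zero]
    exact h
  | add_one b ih =>
    rw [Pool.Agent.H288R4.LS.bethFrom_succ, Pool.Agent.H288R4.LS.bethFrom_succ]
    exact Cardinal.power_le_power_left two_ne_zero ih
  | limit b hb ih =>
    rw [Pool.Agent.H288R4.LS.bethFrom_limit _ _ hb, Pool.Agent.H288R4.LS.bethFrom_limit _ _ hb]
    exact ciSup_mono bddAbove_of_small fun a => ih a.1 a.2

theorem hanf_mono {lam lam' : Cardinal.{0}} (h : lam ≤ lam') : hanf lam ≤ hanf lam' := by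
  have h1 : (Order.succ ((2 : Cardinal.{0}) ^ lam)).ord ≤
      (Order.succ ((2 : Cardinal.{0}) ^ lam')).ord :=
    Cardinal.ord_le_ord.2 (Order.succ_le_succ (Cardinal.power_le_power_left two_ne_zero h))
  exact (Pool.Agent.W879.AE.bethFrom_mono lam h1).trans (bethFrom_mono_left h _)

theorem disjoint {L : FirstOrder.Language.{0, 0}} {K : AEC L} (hI : AdmitsIntersections K)
    (hU : UniqueIsomorphisms K) (hbig : LargeMembers K)
    (hcat : ∃ μ : Cardinal.{0}, K.lsNum < μ ∧ K.Categorical μ) :
    ∃ κ₀ : Cardinal.{0}, K.lsNum < κ₀ ∧ κ₀ < K.H1 ∧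
      (∀ μ : Cardinal.{0}, K.lsNum < μ → (K.Categorical μ ↔ κ₀ ≤ μ)) ∧
      DisjointAmalgamation K κ₀ := by
  let P : Set Cardinal.{0} := {μ | K.lsNum < μ ∧ K.Categorical μ}
  have hP : sInf P ∈ P := csInf_mem hcat
  obtain ⟨κ, h1, h2, h3, h4, -⟩ :=
    Pool.Agent.H665.UA.main hI (rig hU) hbig (sInf P) hP.1 hP.2
  obtain ⟨Ψ, hΨ, hgen, hover⟩ :=
    Pool.Agent.H665.UE.exists_tp hI (rig hU) hbig h1 (h4 κ le_rfl)
  refine ⟨κ, h1, h3, fun μ hμ => ⟨fun h => h2.trans (csInf_le' ⟨hμ, h⟩), fun h => h4 μ h⟩, ?_⟩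
  intro M₀ M₁ M₂ _ _ _ f₁ f₂ hM hf₁ hf₂
  exact Pool.Agent.H665.UE.amalg hΨ hgen hover hf₁ hf₂ hM

theorem result :
    -- (1) the question for pseudouniversal classes, with the bound `h(κ)`
    (∀ (κ : Cardinal.{0}) (L : FirstOrder.Language.{0, 0}) (K : AEC L), K.lsNum ≤ κ →
      AdmitsIntersections K → UniqueIsomorphisms K →
      (∃ lam : Cardinal.{0}, hanf κ ≤ lam ∧ K.Categorical lam) →
      ∀ χ : Cardinal.{0}, hanf κ ≤ χ → AP K χ) ∧
    -- (2) disjoint amalgamation above the first categoricity cardinal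
    (∀ (L : FirstOrder.Language.{0, 0}) (K : AEC L), AdmitsIntersections K →
      UniqueIsomorphisms K → LargeMembers K →
      (∃ μ : Cardinal.{0}, K.lsNum < μ ∧ K.Categorical μ) →
      ∃ κ₀ : Cardinal.{0}, K.lsNum < κ₀ ∧ κ₀ < K.H1 ∧
        (∀ μ : Cardinal.{0}, K.lsNum < μ → (K.Categorical μ ↔ κ₀ ≤ μ)) ∧
        DisjointAmalgamation K κ₀) ∧
    -- (3) classes without maximal members
    (∀ (L : FirstOrder.Language.{0, 0}) (K : AEC L), AdmitsIntersections K →
      UniqueIsomorphisms K → NoMaximalMembers K →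
      (∃ μ : Cardinal.{0}, K.lsNum < μ ∧ K.Categorical μ) →
      DisjointAmalgamation K (Order.succ K.lsNum)) ∧
    -- universal classes are pseudouniversal
    ∀ (L : FirstOrder.Language.{0, 0}) (K : AEC L), Universal K →
      AdmitsIntersections K ∧ UniqueIsomorphisms K := by
  refine ⟨fun κ L K hκ hI hU hcat χ hχ => ?_, fun L K hI hU hbig hcat =>
    disjoint hI hU hbig hcat, fun L K hI hU hmax hcat => ?_, fun L K hK => pseudo hK⟩
  rotate_left
  · have hcat' := hcat
    obtain ⟨μ, hμ, hc⟩ := hcat'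
    have h1 := (Pool.Agent.H665.UE.main_nomax hI (rig hU) hmax hμ hc).1
    have hbig : LargeMembers K := fun χ hχ =>
      Pool.Agent.H665.UE.NoMax.large hI (rig hU) hmax hμ hc hχ.le
    obtain ⟨κ₀, -, -, h3, h4⟩ := disjoint hI hU hbig hcat
    have h5 : κ₀ ≤ Order.succ K.lsNum :=
      (h3 _ (Order.lt_succ _)).1 (h1 _ (Order.lt_succ _))
    intro M₀ M₁ M₂ _ _ _ f₁ f₂ hM hf₁ hf₂
    exact h4 M₀ M₁ M₂ f₁ f₂ (h5.trans hM) hf₁ hf₂
  obtain ⟨μ, hμ, hcat⟩ := hcat
  have h0 := (Pool.Agent.H288R4.LS.LSat_LS K).1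
  have hH : K.H1 ≤ hanf κ := hanf_mono hκ
  have hlt : K.lsNum < K.H1 := Pool.Agent.H288R4.LS.self_lt_hanf h0
  have hbig : LargeMembers K := by
    intro χ hχ
    obtain ⟨M, _, hM, hMc⟩ := hcat.1
    exact ⟨M, inferInstance, hM, hMc ▸ (hχ.le.trans (hH.trans hμ))⟩
  obtain ⟨κ₀, h1, h2, -, h3⟩ := disjoint hI hU hbig ⟨μ, hlt.trans_le (hH.trans hμ), hcat⟩
  intro M₀ M₁ M₂ _ _ _ f₁ f₂ hM₀ hM₁ hM₂ hf₁ hf₂
  obtain ⟨N, sN, g₁, g₂, h4, h5, h6, -, -⟩ := h3 M₀ M₁ M₂ f₁ f₂
    (hM₀ ▸ (h2.le.trans (hH.trans hχ))) hf₁ hf₂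
  exact ⟨N, sN, g₁, g₂, h4, h5, h6⟩

end Pool.Agent.Results.MP_23d7af_lc.PseudouniversalClasses
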